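import Pool.Agent.X84.AbelWeights

set_option autoImplicit false
open Filter Topology Finset
open Pool.Agent.X84.AbelWeights

namespace Pool.Agent.Results.MP_968b24_an.FullyMonotonicWeights

/-- **Full answer to Q1 (parts (a) and (b)): yes.** Every bounded real sequence admits a fully
monotonic admissible weight sequence, which is moreover nonincreasing. Sequences are indexed by
`ℕ = {0, 1, …}`; the term with index `n` here is the term with index `n + 1` of the problem. -/
theorem result :
    ∀ s : ℕ → ℝ, (∃ B, ∀ n, |s n| ≤ B) →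
      ∃ (l : ℕ → ℝ) (M : ℝ), AdmissibleWithLimit s l M ∧ FullyMonotonic l ∧ Antitone l := by
  obtain ⟨r0, r1, rt⟩ := ref_pts
  rintro s ⟨B, hB⟩
  set y : ℕ → ℝ := fun j => 1 - 1 / ((j : ℝ) + 2) with hy
  have hb : ∀ j, abel s (y j) ∈ Set.Icc (-B) B := fun j => by
    rw [Set.mem_Icc, ← abs_le]; exact abel_abs_le hB (r0 j) (r1 j)
  obtain ⟨a, _, φ, hφ, ha⟩ := isCompact_Icc.tendsto_subseq hb
  obtain ⟨l, h1, h2, h3⟩ := exists_admissible hB (fun j => y (φ j)) (fun j => r0 _)
    (fun j => r1 _) (rt.comp hφ.tendsto_atTop) ha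
  exact ⟨l, a, h1, h2, h3⟩

end Pool.Agent.Results.MP_968b24_an.FullyMonotonicWeights
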