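import Pool.Agent.X84.AbelWeights

set_option autoImplicit false
open Filter Topology Finset
open Pool.Agent.X84.AbelWeights

namespace Pool.Agent.Results.MP_968b24_an.TwoFullyMonotonicLimits

/-- **Full answer to Q2: yes.** There is a sequence with all terms in `{0,1}` and two fully
monotonic admissible weight sequences whose weighted means converge to `1` and to `0`. Sequences
are indexed by `ℕ = {0, 1, …}`; the term with index `n` here is the term with index `n + 1` of the
problem. -/
theorem result :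
    ∃ s : ℕ → ℝ, (∀ n, s n = 0 ∨ s n = 1) ∧ ∃ l₁ l₂ : ℕ → ℝ,
      AdmissibleWithLimit s l₁ 1 ∧ FullyMonotonic l₁ ∧
      AdmissibleWithLimit s l₂ 0 ∧ FullyMonotonic l₂ := by
  obtain ⟨r0, r1, rt⟩ := ref_pts
  set y : ℕ → ℝ := fun j => 1 - 1 / ((j : ℝ) + 2) with hy
  obtain ⟨j, q, hj, hq, hq0, hf1, hf2⟩ := exists_fast y r0 r1 rt
  have hex : ∀ m : ℕ, ∃ i, m < q i := fun m =>
    ⟨m + 1, lt_of_lt_of_le (Nat.lt_succ_self m) (hq.id_le (m + 1))⟩
  classical
  let idx : ℕ → ℕ := fun m => Nat.find (hex m)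
  let s : ℕ → ℝ := fun m => if Even (idx m) then 1 else 0
  have hs01 : ∀ m, s m = 0 ∨ s m = 1 := fun m => by
    by_cases h : Even (idx m) <;> simp [s, h]
  have hsB : ∀ m, |s m| ≤ 1 := fun m => by
    rcases hs01 m with h | h <;> simp [h]
  -- Abel mean at `y (j (i+1))` of a sequence constant `c` on the block
  have hidx : ∀ i m, q i ≤ m → m < q (i + 1) → idx m = i + 1 := by
    intro i m h1 h2
    have h3 : idx m ≤ i + 1 := Nat.find_min' (hex m) h2
    have h4 : i < idx m := by
      by_contra hcon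
      push Not at hcon
      have h5 : m < q (idx m) := Nat.find_spec (hex m)
      have h6 := hq.monotone hcon
      omega
    omega
  have habel : ∀ i, |abel s (y (j (i + 1))) - (if Even (i + 1) then 1 else 0)|
      ≤ 2 * (1 / 2 : ℝ) ^ (i + 1) := by
    intro i
    set x := y (j (i + 1)) with hx
    set c : ℝ := if Even (i + 1) then 1 else 0 with hc
    have hx0 : 0 < x := r0 _
    have hx1 : x < 1 := r1 _
    have hx1' : 0 < 1 - x := by linarith
    rw [← abel_sub_const hsB hx0.le hx1]
    have hc01 : c = 0 ∨ c = 1 := by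
      by_cases h : Even (i + 1) <;> simp [hc, h]
    have hd : ∀ m, |s m - c| ≤ 1 := fun m => by
      rcases hs01 m with h | h <;> rcases hc01 with h' | h' <;> simp [h, h']
    have hz : ∀ m, q i ≤ m → m < q (i + 1) → s m - c = 0 := fun m h1 h2 => by
      simp only [s, hidx i m h1 h2, hc, sub_self]
    have hsm := summable_pow_mul hd hx0.le hx1
    have hmono : q i ≤ q (i + 1) := hq.monotone (Nat.le_succ i)
    -- split the sum
    have hsplit : ∑' m, x ^ m * (s m - c) = ∑ m ∈ range (q i), x ^ m * (s m - c)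
        + ∑' m, x ^ (m + q (i + 1)) * (s (m + q (i + 1)) - c) := by
      rw [← hsm.sum_add_tsum_nat_add (q (i + 1))]
      congr 1
      rw [← Finset.sum_range_add_sum_Ico _ hmono]
      have : ∑ m ∈ Ico (q i) (q (i + 1)), x ^ m * (s m - c) = 0 := by
        refine sum_eq_zero fun m hm => ?_
        rw [mem_Ico] at hm
        rw [hz m hm.1 hm.2, mul_zero]
      rw [this, add_zero]
    have b1 : |∑ m ∈ range (q i), x ^ m * (s m - c)| ≤ ∑ m ∈ range (q i), x ^ m := by
      refine (abs_sum_le_sum_abs _ _).trans (sum_le_sum fun m _ => ?_)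
      rw [abs_mul, abs_of_pos (pow_pos hx0 m)]
      exact mul_le_of_le_one_right (pow_pos hx0 m).le (hd m)
    have b2 : |∑' m, x ^ (m + q (i + 1)) * (s (m + q (i + 1)) - c)|
        ≤ x ^ q (i + 1) * (1 - x)⁻¹ := by
      have hd' : ∀ m, |s (m + q (i + 1)) - c| ≤ 1 := fun m => hd _
      have e1 : ∑' m, x ^ (m + q (i + 1)) * (s (m + q (i + 1)) - c)
          = x ^ q (i + 1) * ∑' m, x ^ m * (s (m + q (i + 1)) - c) := by
        rw [← tsum_mul_left]
        refine tsum_congr fun m => ?_
        rw [pow_add]; ring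
      rw [e1, abs_mul, abs_of_pos (pow_pos hx0 _)]
      apply mul_le_mul_of_nonneg_left _ (pow_pos hx0 _).le
      have h5 := abel_abs_le hd' hx0 hx1
      rw [abel, abs_mul, abs_of_pos hx1'] at h5
      rw [← one_div, le_div_iff₀ hx1']
      linarith
    have b3 : (1 - x) * ∑ m ∈ range (q i), x ^ m = 1 - x ^ q i := mul_neg_geom_sum x (q i)
    rw [abel, hsplit, abs_mul, abs_of_pos hx1']
    calc (1 - x) * |∑ m ∈ range (q i), x ^ m * (s m - c)
          + ∑' m, x ^ (m + q (i + 1)) * (s (m + q (i + 1)) - c)|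
        ≤ (1 - x) * (∑ m ∈ range (q i), x ^ m + x ^ q (i + 1) * (1 - x)⁻¹) := by
          apply mul_le_mul_of_nonneg_left _ hx1'.le
          exact (abs_add_le _ _).trans (add_le_add b1 b2)
      _ = (1 - x ^ q i) + x ^ q (i + 1) := by
          rw [mul_add, b3]
          congr 1
          field_simp
      _ ≤ 2 * (1 / 2 : ℝ) ^ (i + 1) := by
          have h5 := hf1 i
          have h6 := hf2 (i + 1)
          linarith
  have hhalf : Tendsto (fun k : ℕ => 2 * (1 / 2 : ℝ) ^ k) atTop (𝓝 0) := by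
    simpa using (tendsto_pow_atTop_nhds_zero_of_lt_one (by norm_num : (0 : ℝ) ≤ 1 / 2)
      (by norm_num)).const_mul 2
  have hev : Tendsto (fun k => abel s (y (j (2 * k + 2)))) atTop (𝓝 1) := by
    rw [tendsto_iff_norm_sub_tendsto_zero]
    refine squeeze_zero (fun _ => norm_nonneg _) (fun k => ?_)
      (hhalf.comp (tendsto_atTop_mono (fun k => (by omega : k ≤ 2 * k + 2)) tendsto_id))
    have h3 := habel (2 * k + 1)
    have h4 : Even (2 * k + 1 + 1) := ⟨k + 1, by ring⟩
    rw [if_pos h4] at h3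
    exact h3
  have hod : Tendsto (fun k => abel s (y (j (2 * k + 1)))) atTop (𝓝 0) := by
    rw [tendsto_iff_norm_sub_tendsto_zero]
    refine squeeze_zero (fun _ => norm_nonneg _) (fun k => ?_)
      (hhalf.comp (tendsto_atTop_mono (fun k => (by omega : k ≤ 2 * k + 1)) tendsto_id))
    have h3 := habel (2 * k)
    have h4 : ¬ Even (2 * k + 1) := by
      rw [Nat.not_even_iff_odd]; exact ⟨k, rfl⟩
    rw [if_neg h4] at h3
    exact h3
  have ht2 : Tendsto (fun k : ℕ => 2 * k + 2) atTop atTop :=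
    tendsto_atTop_mono (fun k => (by omega : k ≤ 2 * k + 2)) tendsto_id
  have ht1 : Tendsto (fun k : ℕ => 2 * k + 1) atTop atTop :=
    tendsto_atTop_mono (fun k => (by omega : k ≤ 2 * k + 1)) tendsto_id
  obtain ⟨l₁, a1, a2, _⟩ := exists_admissible hsB (fun k => y (j (2 * k + 2))) (fun _ => r0 _)
    (fun _ => r1 _) (rt.comp (hj.tendsto_atTop.comp ht2)) hev
  obtain ⟨l₂, b1, b2, _⟩ := exists_admissible hsB (fun k => y (j (2 * k + 1))) (fun _ => r0 _)
    (fun _ => r1 _) (rt.comp (hj.tendsto_atTop.comp ht1)) hod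
  exact ⟨s, hs01, l₁, l₂, a1, a2, b1, b2⟩

end Pool.Agent.Results.MP_968b24_an.TwoFullyMonotonicLimits
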